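import Pool.Agent.H58.Mob5

/-!
# Edge-maximal graphs with mobile general position number two

For every `n ≥ 4`: the Turan graph `T(n,3)` has mobile general position number `2`, every graph of
order `n` with mobile general position number `2` has at most as many edges as `T(n,3)`, and
equality forces the graph to be isomorphic to `T(n,3)`.
-/

namespace Pool.Agent.Results.MP_490342_co.TuranMobTwo

open SimpleGraph Pool.Agent.H58.Mob

theorem result : ∀ n : ℕ, 4 ≤ n →
    mob (turanGraph n 3) = 2 ∧
    ∀ (G : SimpleGraph (Fin n)) [DecidableRel G.Adj], mob G = 2 →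
      G.edgeFinset.card ≤ (turanGraph n 3).edgeFinset.card ∧
      (G.edgeFinset.card = (turanGraph n 3).edgeFinset.card →
        Nonempty (G ≃g turanGraph n 3)) := by
  intro n hn
  refine ⟨turan_mob hn, fun G _ hG => ?_⟩
  have h2 : ∀ S : Finset (Fin n), IsMobile G S → S.card ≤ 2 := fun S hS => by
    have := card_le_mob hS
    omega
  have key := edges_le (G := G) (by simp; omega) h2
  rw [Fintype.card_fin] at key
  exact key

end Pool.Agent.Results.MP_490342_co.TuranMobTwo
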